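import Pool.Agent.helper6.EV.Spec

set_option autoImplicit false

namespace Pool.Agent.EV

open N1f72dd46 Filter MeasureTheory Complex Metric Pool.Agent.helper6.LD

theorem I2_count (r : ℕ) :
    Nat.primeCounting r = ((Finset.Icc 1 r).filter Nat.Prime).card := by
  rw [Nat.primeCounting, Nat.primeCounting', Nat.count_eq_card_filter_range]
  congr 1
  ext p
  simp only [Finset.mem_filter, Finset.mem_range, Finset.mem_Icc]
  constructor
  · rintro ⟨h1, h2⟩
    exact ⟨⟨h2.one_lt.le, by omega⟩, h2⟩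
  · rintro ⟨⟨h1, h2⟩, h3⟩
    exact ⟨by omega, h3⟩

theorem I2 (h : I1_stmt) : I2_stmt := by
  intro n hn
  classical
  obtain ⟨⟨S, hS, hG⟩, -⟩ := h n
  obtain ⟨hS1, hS2⟩ := hS
  have huniq : ∀ x ∈ S, ∀ y ∈ S, x.minFac = y.minFac → x.minFac.Prime → x = y := by
    intro x hx y hy hxy hp
    by_contra hne
    have hc : Nat.Coprime x y := hS2 (Finset.mem_coe.mpr hx) (Finset.mem_coe.mpr hy) hne
    have h1 : x.minFac ∣ x := Nat.minFac_dvd x
    have h2 : x.minFac ∣ y := hxy ▸ Nat.minFac_dvd y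
    have h3 : x.minFac ∣ Nat.gcd x y := Nat.dvd_gcd h1 h2
    rw [Nat.Coprime] at hc
    rw [hc] at h3
    exact hp.one_lt.ne' (Nat.dvd_one.mp h3)
  let a : ℕ → ℕ := fun p => if hp : p.Prime ∧ ∃ x ∈ S, x.minFac = p then hp.2.choose else 0
  have ha0 : ∀ p, ¬ (p.Prime ∧ ∃ x ∈ S, x.minFac = p) → a p = 0 := fun p hp => dif_neg hp
  have ha1 : ∀ p, (p.Prime ∧ ∃ x ∈ S, x.minFac = p) → a p ∈ S ∧ (a p).minFac = p := by
    intro p hp
    have h1 : a p = hp.2.choose := dif_pos hp
    rw [h1]
    exact hp.2.choose_spec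
  have hmem : ∀ x ∈ S, 1 ≤ x ∧ x ≤ n := fun x hx => Finset.mem_Icc.mp (hS1 hx)
  have hA : ∀ p, a p = 0 ∨ (p.Prime ∧ 1 < a p ∧ a p ≤ n ∧ (a p).minFac = p) := by
    intro p
    by_cases hp : p.Prime ∧ ∃ x ∈ S, x.minFac = p
    · right
      obtain ⟨h1, h2⟩ := ha1 p hp
      refine ⟨hp.1, ?_, (hmem _ h1).2, h2⟩
      rcases Nat.lt_or_ge 1 (a p) with h3 | h3
      · exact h3
      · exfalso
        have h4 : a p = 1 := le_antisymm h3 (hmem _ h1).1
        rw [h4, Nat.minFac_one] at h2
        exact hp.1.one_lt.ne h2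
    · left
      exact ha0 p hp
  have hAS : ∀ p, a p ≠ 0 → a p ∈ S ∧ (a p).minFac = p := by
    intro p hp
    by_cases hp' : p.Prime ∧ ∃ x ∈ S, x.minFac = p
    · exact ha1 p hp'
    · exact absurd (ha0 p hp') hp
  have haS : ∀ x ∈ S, x ≠ 1 → a x.minFac = x := by
    intro x hx hx1
    have hp : x.minFac.Prime := Nat.minFac_prime hx1
    obtain ⟨h1, h2⟩ := ha1 x.minFac ⟨hp, x, hx, rfl⟩
    exact huniq _ h1 _ hx h2 (by rw [h2]; exact hp)
  refine ⟨a, hA, ?_, ?_⟩
  · intro p p' hpp h1 h2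
    obtain ⟨h3, h4⟩ := hAS p h1
    obtain ⟨h5, h6⟩ := hAS p' h2
    refine hS2 (Finset.mem_coe.mpr h3) (Finset.mem_coe.mpr h5) ?_
    intro h7
    exact hpp (by rw [← h4, ← h6, h7])
  · set r := Nat.sqrt n with hr
    set P := (Finset.Icc 1 r).filter Nat.Prime with hP
    -- the sum over S
    have hsum1 : ∑ x ∈ S, x ≤ 1 + ∑ p ∈ (Finset.Icc 1 n).filter Nat.Prime, a p := by
      have e1 : ∑ x ∈ S, x ≤ 1 + ∑ x ∈ S.erase 1, x := by
        by_cases h1 : 1 ∈ S
        · rw [← Finset.add_sum_erase S (fun x => x) h1]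
        · rw [Finset.erase_eq_of_notMem h1]
          omega
      have e2 : ∑ x ∈ S.erase 1, x = ∑ p ∈ (S.erase 1).image Nat.minFac, a p := by
        rw [Finset.sum_image]
        · refine Finset.sum_congr rfl ?_
          intro x hx
          rw [Finset.mem_erase] at hx
          exact (haS x hx.2 hx.1).symm
        · intro x hx y hy hxy
          rw [Finset.mem_coe, Finset.mem_erase] at hx hy
          exact huniq x hx.2 y hy.2 hxy (Nat.minFac_prime hx.1)
      have e3 : (S.erase 1).image Nat.minFac ⊆ (Finset.Icc 1 n).filter Nat.Prime := by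
        intro p hp
        rw [Finset.mem_image] at hp
        obtain ⟨x, hx, rfl⟩ := hp
        rw [Finset.mem_erase] at hx
        have hpp := Nat.minFac_prime hx.1
        rw [Finset.mem_filter, Finset.mem_Icc]
        refine ⟨⟨hpp.one_lt.le, ?_⟩, hpp⟩
        exact (Nat.minFac_le (hmem x hx.2).1).trans (hmem x hx.2).2
      have e4 := Finset.sum_le_sum_of_subset (f := a) e3
      omega
    have hsum2 : ∑ p ∈ (Finset.Icc 1 n).filter Nat.Prime, a p ≤
        ∑ p ∈ P, a p + (∑ p ∈ (Finset.range n).filter Nat.Prime, p + n) := by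
      have hsub : P ⊆ (Finset.Icc 1 n).filter Nat.Prime := by
        intro p hp
        rw [hP, Finset.mem_filter, Finset.mem_Icc] at hp
        rw [Finset.mem_filter, Finset.mem_Icc]
        exact ⟨⟨hp.1.1, hp.1.2.trans (Nat.sqrt_le_self n)⟩, hp.2⟩
      rw [← Finset.sum_sdiff hsub, add_comm]
      refine Nat.add_le_add_left ?_ _
      have e5 : ∑ p ∈ (Finset.Icc 1 n).filter Nat.Prime \ P, a p ≤
          ∑ p ∈ (Finset.Icc 1 n).filter Nat.Prime \ P, p := by
        refine Finset.sum_le_sum ?_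
        intro p hp
        rw [Finset.mem_sdiff, Finset.mem_filter, Finset.mem_Icc, hP, Finset.mem_filter,
          Finset.mem_Icc] at hp
        obtain ⟨⟨⟨h1, h2⟩, h3⟩, h4⟩ := hp
        have h5 : r < p := by
          by_contra h6
          exact h4 ⟨⟨h1, not_lt.mp h6⟩, h3⟩
        rcases hA p with h6 | ⟨-, h6, h7, h8⟩
        · omega
        · by_cases h9 : (a p).Prime
          · rw [h9.minFac_eq] at h8
            exact h8.le
          · exfalso
            have h10 := Nat.minFac_sq_le_self (by omega : 0 < a p) h9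
            rw [h8] at h10
            have h11 : n < (r + 1) ^ 2 := by
              rw [hr, pow_two]
              exact Nat.lt_succ_sqrt n
            have h12 : (r + 1) ^ 2 ≤ p ^ 2 := Nat.pow_le_pow_left h5 2
            omega
      have e6 : (Finset.Icc 1 n).filter Nat.Prime \ P ⊆
          (Finset.range n).filter Nat.Prime ∪ {n} := by
        intro p hp
        rw [Finset.mem_sdiff, Finset.mem_filter, Finset.mem_Icc] at hp
        rw [Finset.mem_union, Finset.mem_filter, Finset.mem_range, Finset.mem_singleton]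
        rcases Nat.lt_or_ge p n with h1 | h1
        · exact Or.inl ⟨h1, hp.1.2⟩
        · exact Or.inr (le_antisymm hp.1.1.2 h1)
      have e7 := Finset.sum_le_sum_of_subset (f := fun p : ℕ => p) e6
      have e8 : ∑ p ∈ (Finset.range n).filter Nat.Prime ∪ {n}, p =
          ∑ p ∈ (Finset.range n).filter Nat.Prime, p + n := by
        rw [Finset.sum_union, Finset.sum_singleton]
        rw [Finset.disjoint_singleton_right]
        intro h1
        rw [Finset.mem_filter, Finset.mem_range] at h1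
        exact lt_irrefl _ h1.1
      rw [e8] at e7
      exact e5.trans e7
    have hH : (H n : ℤ) = ∑ p ∈ (Finset.range n).filter Nat.Prime, (p : ℤ) + n * P.card := by
      rw [H, I2_count]
      push_cast
      rfl
    have hL : ∑ p ∈ P, ((n : ℤ) - (a p : ℤ)) = n * P.card - ∑ p ∈ P, (a p : ℤ) := by
      rw [Finset.sum_sub_distrib, Finset.sum_const, nsmul_eq_mul]
      ring
    rw [hL, hH, hG]
    have h1 : ((∑ x ∈ S, x : ℕ) : ℤ) ≤ ((1 + (∑ p ∈ P, a p +
        (∑ p ∈ (Finset.range n).filter Nat.Prime, p + n)) : ℕ) : ℤ) := by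
      exact_mod_cast hsum1.trans (Nat.add_le_add_left hsum2 1)
    push_cast at h1 ⊢
    linarith

end Pool.Agent.EV
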